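import Pool.Agent.X186.IC.DegSum
import Pool.Agent.X186.IC.Half
import Pool.Agent.W965.TFP.Main

/-!
`t`-flow-pairs with `1/2 ≤ t` in all bridgeless graphs with large degree sums of non-adjacent
vertices.

Scaled `1/2`-flow-pairs, from the theorem on `1/2`-flow-pairs for these graphs in
`Pool.Agent.X186.IC.Half` (see also the results folder of MP_e59a69_co).
-/

set_option autoImplicit false

namespace Pool.Agent.Results.MP_53b341_co.DegreeSums

open Pool.Agent.H160R2.HF Pool.Agent.W965.TFP
open Pool.Agent.X186.IC (LargeDegreeSums half_main dic_deg)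

/-- Let `G` be a finite bridgeless graph; loops and parallel edges are allowed. Suppose that for some `r ≤ 4` and some `σ > 9 (r + 1)` every `r + 1` pairwise non-adjacent vertices have numbers of neighbours with a sum of at least `σ`, and that the number `n` of vertices satisfies `(r + 1) n < k (σ + r + 1)`, where `k = 17, 15, 12, 9, 5` for `r = 0, 1, 2, 3, 4` (`LargeDegreeSums`). Then `G` has a `p/(2s)`-flow-pair for all
`0 < s ≤ p`. -/
theorem result :
    ∀ (V E : Type) [Fintype V] [Fintype E] [DecidableEq V] [DecidableEq E] (G : OrGraph V E),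
      G.Bridgeless → LargeDegreeSums G.t G.h →
      ∀ p s : ℕ, 0 < s → s ≤ p → ∃ φ₂ φ : E → ℤ, IsFlowPair G p (2 * s) φ₂ φ := by
  intro V E _ _ _ _ G hG h p s hs hp
  have hb := G.cut_card_ne_one hG
  obtain ⟨φ₂, φ₄, ⟨h1, ⟨h2, h3⟩, h4⟩⟩ :=
    half_main G hb (dic_deg (Pool.Agent.X42.HalfPet.n1_of hb) h)
  refine ⟨φ₂, fun e => s * φ₄ e, h1, ⟨fun e => ?_, fun v => ?_⟩, fun e he => ?_⟩
  · have h5 := h2 e
    rw [abs_mul, Nat.abs_cast]
    push_cast at h5 ⊢
    have h6 : (s : ℤ) * |φ₄ e| ≤ s * 3 := by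
      apply mul_le_mul_of_nonneg_left _ (by positivity)
      linarith
    have h7 : (s : ℤ) ≤ p := by exact_mod_cast hp
    linarith
  · have h5 := h3 v
    rw [← Finset.mul_sum, ← Finset.mul_sum, h5]
  · have h5 := h4 e he
    rw [abs_mul, Nat.abs_cast]
    push_cast
    have h6 : (s : ℤ) * 2 ≤ s * |φ₄ e| := mul_le_mul_of_nonneg_left h5 (by positivity)
    linarith

end Pool.Agent.Results.MP_53b341_co.DegreeSums
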