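import Pool.Agent.X186.IC.Short
import Pool.Agent.X186.IC.Half
import Pool.Agent.W965.TFP.Main

/-!
`t`-flow-pairs with `1/2 ≤ t` in all bridgeless graphs with few light or few independent small odd
cuts.

Scaled `1/2`-flow-pairs, from the theorem on `1/2`-flow-pairs for these graphs in
`Pool.Agent.X186.IC.Half` (see also the results folder of MP_e59a69_co).
-/

set_option autoImplicit false

namespace Pool.Agent.Results.MP_53b341_co.SmallOddCuts

open Pool.Agent.H160R2.HF Pool.Agent.W965.TFP
open Pool.Agent.X42.FewCuts (NoLightFamily)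
open Pool.Agent.X186.IC (IndependentSmallCuts half_main dic_of)

/-- Let `G` be a finite bridgeless graph; loops and parallel edges are allowed. Suppose that (A) for
any `m ≥ 18` pairwise disjoint vertex sets with odd numbers of boundary edges these numbers have a
sum of more than `4 m - 6` (`NoLightFamily`), or (B) for some vertex set `U` and some `a ≥ 3`,
`c ≥ 1` with `4 a + |U| + ⌊6 / c⌋ ≤ 21` there are no `a + 1` pairwise disjoint and pairwise
non-adjacent vertex sets, all of them disjoint from `U`, each with an odd number, at most `2 c + 1`,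
of boundary edges (`IndependentSmallCuts`). Then `G` has a `p/(2s)`-flow-pair for all
`0 < s ≤ p`. -/
theorem result :
    ∀ (V E : Type) [Fintype V] [Fintype E] [DecidableEq V] [DecidableEq E] (G : OrGraph V E),
      G.Bridgeless → NoLightFamily G.t G.h ∨ IndependentSmallCuts G.t G.h →
      ∀ p s : ℕ, 0 < s → s ≤ p → ∃ φ₂ φ : E → ℤ, IsFlowPair G p (2 * s) φ₂ φ := by
  intro V E _ _ _ _ G hG h p s hs hp
  have hb := G.cut_card_ne_one hG
  obtain ⟨φ₂, φ₄, ⟨h1, ⟨h2, h3⟩, h4⟩⟩ :=
    half_main G hb (dic_of (Pool.Agent.X42.HalfPet.n1_of hb) h)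
  refine ⟨φ₂, fun e => s * φ₄ e, h1, ⟨fun e => ?_, fun v => ?_⟩, fun e he => ?_⟩
  · have h5 := h2 e
    rw [abs_mul, Nat.abs_cast]
    push_cast at h5 ⊢
    have h6 : (s : ℤ) * |φ₄ e| ≤ s * 3 := by
      apply mul_le_mul_of_nonneg_left _ (by positivity)
      linarith
    have h7 : (s : ℤ) ≤ p := by exact_mod_cast hp
    linarith
  · have h5 := h3 v
    rw [← Finset.mul_sum, ← Finset.mul_sum, h5]
  · have h5 := h4 e he
    rw [abs_mul, Nat.abs_cast]
    push_cast
    have h6 : (s : ℤ) * 2 ≤ s * |φ₄ e| := mul_le_mul_of_nonneg_left h5 (by positivity)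
    linarith

end Pool.Agent.Results.MP_53b341_co.SmallOddCuts
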